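import Pool.Agent.Q5.BP.Pack
import Pool.Agent.Results.MP_ec4e4b_nt.MeanProductOrder

/-!
# The central leading coefficient of `L(H^{2m-1}(X), s)` in exact mean square

Let `X` be a smooth projective variety of dimension `d` over a number field `K` (for example `K = ℚ`), given by
homogeneous polynomials over `𝓞 K`, `1 ≤ m`, `2 m - 1 ≤ 2 d`, and let `α_{v,j}`, `v ∉ S`, be the eigenvalues of the
Frobenius on `H^{2m-1}(X)`, given by the numbers of points of `X` over finite fields. Let `F` be a continuation of the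
incomplete `L`-function `∏_{v ∉ S} ∏_j (1 - α_{v,j} q_v^{-s})⁻¹` to a half plane `Re s > m - η`, analytic except perhaps
for a pole at `s = m`, of polynomial growth. Let

`P(y) = ∏_{v ∉ S, q_v ≤ y} |∏_j (1 - α_{v,j} q_v^{-m})|`,
`P*(y) = exp (- ∑_{v ∉ S, q_v^k ≤ y} tr (Frob_v^k | H^{2m-1}(X)) / (k q_v^{mk}))`

be the partial Euler products at the centre with the SHARP cut-off, and for real `ρ` and `A > 0`

`δ*(y) = log (A P*(y) / (e^γ log y)^ρ)`,  `δ(y) = log (A e^c P(y) / (e^γ log y)^ρ)`.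

Write `μ_t` for the order of vanishing of `F` at `m + it`. Then the following are equivalent:

* `ρ` is an integer, `F(s)/(s - m)^ρ → A` for `s → m`, and `F` has no zeros with `Re s > m`;
* `(log Y)⁻¹ ∫_e^Y (log y · δ*(y))² dy/y` is bounded for large `Y`;
* the sum `V = ∑_{t ≠ 0} μ_t²/t²` converges and `(log Y)⁻¹ ∫_e^Y (log y · δ*(y))² dy/y → V`.

In this case for every real `t` the means `(log Y)⁻¹ ∫_e^Y (log y · δ*(y)) y^(-it) dy/y` tend to `- i μ_t / t` (to `0`
for `t = 0`): the numbers of points of `X` over finite fields determine the zeros of the `L`-function on the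
critical line with their multiplicities by explicit limits. The same holds for `δ` if
`log y · (∑_{√y < q_v ≤ y} tr (Frob_v²)/(2 q_v^{2m}) - c) → 0`.

Beilinson's conjecture predicts `ρ = dim CH^m(X)^0 ⊗ ℚ` and `A ∈ ℚ^* · det Π · det ⟨ , ⟩` (the Euler factors at `S` are
rational at `m`). In the last part `R > 0` is the predicted number up to a rational factor: the prediction for the
order and the leading coefficient and the Riemann hypothesis hold together if and only if for some rational `q > 0`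
the error term in `P*(y) ≈ (e^γ log y)^r / (q R)` is `O(1/log y)` in square mean.
-/

set_option autoImplicit false

namespace Pool.Agent.Results.MP_29b22a_nt.ExactMeanSquareCentral

open Filter Topology Set Complex NumberField IsDedekindDomain MeasureTheory
open Pool.Agent.Results.MP_ec4e4b_nt.MeanProductOrder (cone IsFrobenius norm IsLocal Tempered upTo
  product productStar)

variable {K : Type} [Field K] [NumberField K] {N : ℕ}

/-- `ρ` is an integer, `F(s) / (s - m)^ρ → A` for `s → m`, and `F` has no zeros with `Re s > m`. -/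
def LeadingRH (m : ℕ) (F : ℂ → ℂ) (ρ A : ℝ) : Prop :=
  (∃ e : ℤ, ρ = e ∧ Tendsto (fun s : ℂ => F s / (s - m) ^ e) (𝓝[≠] (m : ℂ)) (𝓝 (A : ℂ))) ∧
    ∀ s : ℂ, (m : ℝ) < s.re → F s ≠ 0

/-- `log (A P*(y) / (e^γ log y)^ρ)` -/
noncomputable def devStar (m : ℕ) (S : Finset (HeightOneSpectrum (𝓞 K)))
    (α : HeightOneSpectrum (𝓞 K) → Fin N → ℂ) (ρ A y : ℝ) : ℝ :=
  Real.log (A * productStar m S α y / (Real.exp Real.eulerMascheroniConstant * Real.log y) ^ ρ)

/-- `log (A e^c P(y) / (e^γ log y)^ρ)` -/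
noncomputable def dev (m : ℕ) (S : Finset (HeightOneSpectrum (𝓞 K)))
    (α : HeightOneSpectrum (𝓞 K) → Fin N → ℂ) (ρ A c y : ℝ) : ℝ :=
  Real.log (A * Real.exp c * product m S α y /
    (Real.exp Real.eulerMascheroniConstant * Real.log y) ^ ρ)

/-- `∑_{√y < q_v ≤ y} (∑_j α_{v,j}²)/(2 q_v^{2m})` -/
noncomputable def squares (m : ℕ) (S : Finset (HeightOneSpectrum (𝓞 K)))
    (α : HeightOneSpectrum (𝓞 K) → Fin N → ℂ) (y : ℝ) : ℝ :=
  ∑ᶠ (v : {v : HeightOneSpectrum (𝓞 K) // v ∉ S}) (_ : √y < norm v.1 ∧ (norm v.1 : ℝ) ≤ y),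
    (∑ j, α v.1 j ^ 2).re / (2 * ((norm v.1 : ℝ) ^ m) ^ 2)

/-- The order of vanishing of `F` at `m + it`. -/
noncomputable def mult (m : ℕ) (F : ℂ → ℂ) (t : ℝ) : ℕ := (analyticOrderAt F (m + t * I)).toNat

/-- `(log Y)⁻¹ ∫_e^Y (log y · δ(y))² dy/y`. -/
noncomputable def meanSquare (δ : ℝ → ℝ) (Y : ℝ) : ℝ :=
  (∫ y in Real.exp 1..Y, (Real.log y * δ y) ^ 2 / y) / Real.log Y

/-- `(log Y)⁻¹ ∫_e^Y (log y · δ(y)) y^(-it) dy/y`. -/
noncomputable def coefficient (δ : ℝ → ℝ) (t Y : ℝ) : ℂ :=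
  (∫ y in Real.exp 1..Y, ((Real.log y * δ y : ℝ) : ℂ) * (y : ℂ) ^ (-(t * I)) / (y : ℂ)) /
    (Real.log Y : ℂ)

/-- `∫_e^Y (log y · δ(y))² dy/y ≤ B log Y` for some `B` and all large `Y`. -/
def BoundedMeanSquare (δ : ℝ → ℝ) : Prop := ∃ B : ℝ, ∀ᶠ Y : ℝ in atTop,
  ∫ y in Real.exp 1..Y, (Real.log y * δ y) ^ 2 / y ≤ B * Real.log Y

/-- `∑_t μ_t²/t²` converges (the term with `t = 0` is `0`) and is the limit of the mean squares. -/
def SquareLaw (m : ℕ) (F : ℂ → ℂ) (δ : ℝ → ℝ) : Prop :=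
  ∃ V : ℝ, HasSum (fun t : ℝ => ((mult m F t : ℝ) / t) ^ 2) V ∧ Tendsto (meanSquare δ) atTop (𝓝 V)

/-- For every real `t` the means of `log y · δ(y) y^(-it)` tend to `-i μ_t/t` (`0` for `t = 0`). -/
def ReadsZeros (m : ℕ) (F : ℂ → ℂ) (δ : ℝ → ℝ) : Prop :=
  ∀ t : ℝ, Tendsto (coefficient δ t) atTop (𝓝 (-((mult m F t : ℂ) * I / t)))

/-! ### translation -/

open Pool.Agent.Results.MP_ec4e4b_nt.MeanProductOrder (centre frob cpow_m tempered log_product)
open Pool.Agent.TH942.ES (cP)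
open Pool.Agent.Q5.MS (Sq)
open Pool.Agent.Q5.VA (NS aD)

variable {n : ℕ} {X : Set (MvPolynomial (Fin n) (𝓞 K))} {d m : ℕ}
  {S : Finset (HeightOneSpectrum (𝓞 K))} {α : HeightOneSpectrum (𝓞 K) → Fin N → ℂ} {F : ℂ → ℂ}

theorem lim_shift (F : ℂ → ℂ) (c : ℂ) (e : ℤ) (A : ℂ) :
    Tendsto (fun s : ℂ => F (c + s) / s ^ e) (𝓝[≠] 0) (𝓝 A) ↔
      Tendsto (fun s : ℂ => F s / (s - c) ^ e) (𝓝[≠] c) (𝓝 A) := by
  have h1 : Tendsto (fun s : ℂ => c + s) (𝓝[≠] 0) (𝓝[≠] c) := by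
    refine tendsto_nhdsWithin_iff.2 ⟨?_, ?_⟩
    · have h1 : Tendsto (fun s : ℂ => c + s) (𝓝 0) (𝓝 (c + 0)) :=
        (continuous_const.add continuous_id).tendsto _
      rw [add_zero] at h1
      exact h1.mono_left nhdsWithin_le_nhds
    · filter_upwards [self_mem_nhdsWithin] with s hs
      have hs0 : s ≠ 0 := hs
      show c + s ≠ c
      simpa using hs0
  have h2 : Tendsto (fun s : ℂ => s - c) (𝓝[≠] c) (𝓝[≠] 0) := by
    refine tendsto_nhdsWithin_iff.2 ⟨?_, ?_⟩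
    · have h1 : Tendsto (fun s : ℂ => s - c) (𝓝 c) (𝓝 (c - c)) :=
        (continuous_id.sub continuous_const).tendsto _
      rw [sub_self] at h1
      exact h1.mono_left nhdsWithin_le_nhds
    · filter_upwards [self_mem_nhdsWithin] with s hs
      have hs0 : s ≠ c := hs
      show s - c ≠ 0
      exact sub_ne_zero.2 hs0
  constructor
  · intro h
    refine (h.comp h2).congr fun s => ?_
    simp only [Function.comp_apply, add_sub_cancel]
  · intro h
    refine (h.comp h1).congr fun s => ?_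
    simp only [Function.comp_apply, add_sub_cancel_left]

theorem lead_iff (m : ℕ) (F : ℂ → ℂ) (ρ A : ℝ) : LeadingRH m F ρ A ↔
    ((∀ s : ℂ, 0 < s.re → F ((m : ℝ) + s) ≠ 0) ∧
      ∃ e : ℤ, ρ = e ∧ Tendsto (fun s => F ((m : ℝ) + s) / s ^ e) (𝓝[≠] 0) (𝓝 (A : ℂ))) := by
  have hmc : ((m : ℝ) : ℂ) = (m : ℂ) := by push_cast; rfl
  rw [Q5.VA.zeros_shiftC]
  simp only [lim_shift]
  rw [hmc]
  exact and_comm

theorem squares_eq (hm : 1 ≤ m) : squares m S α = Sq (NS S) (aD (2 * m - 1) S α) := by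
  funext y
  unfold squares Sq
  refine finsum_congr fun v => finsum_congr fun _ => ?_
  rw [Q5.VA.cP_D (m : ℝ) (centre hm) (v, 1), Real.rpow_natCast]
  have h1 : ((Pool.Agent.H921R2.TatePole.nm v.1 : ℕ) : ℝ) = (norm v.1 : ℝ) := rfl
  norm_num
  rw [h1]

theorem product_pos (hm : 1 ≤ m) (h : IsLocal X d (2 * m - 1) S α) (y : ℝ) :
    0 < product m S α y := by
  unfold product
  refine finprod_mem_induction (fun x : ℝ => 0 < x) one_pos (fun x y hx hy => mul_pos hx hy)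
    fun v hv => ?_
  rw [norm_pos_iff, Finset.prod_ne_zero_iff]
  intro j _ h0
  have h1 := (frob h).lt_one ⟨v, hv.1⟩ j
  rw [← centre hm, cpow_m, ← sub_eq_zero.1 h0, norm_one] at h1
  exact lt_irrefl _ h1

theorem dev_eqP (hm : 1 ≤ m) (hd : 2 * m - 1 ≤ 2 * d) (h : IsLocal X d (2 * m - 1) S α)
    {ρ A c y : ℝ} (hA : 0 < A) (hy : Real.exp 1 ≤ y) :
    dev m S α ρ A c y = Pool.Agent.Q5.BP.DvP (NS S) (aD (2 * m - 1) S α) ρ A c y := by
  have hl : 0 < Real.log y := by linarith [Pool.Agent.TH270.MS.one_le_log hy]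
  have h6 : 0 < Real.exp Real.eulerMascheroniConstant * Real.log y :=
    mul_pos (Real.exp_pos _) hl
  have h7 := Real.rpow_pos_of_pos h6 ρ
  have h8 := product_pos hm h y
  unfold dev Pool.Agent.Q5.BP.DvP
  rw [Real.log_div (by positivity) h7.ne', Real.log_mul (by positivity) h8.ne',
    Real.log_mul hA.ne' (Real.exp_pos c).ne', Real.log_exp, log_product hm hd h,
    Real.log_rpow h6, Real.log_mul (Real.exp_pos _).ne' hl.ne', Real.log_exp]
  ring

/-- **The central leading coefficient in exact mean square.** -/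
theorem result (K : Type) [Field K] [NumberField K] (n : ℕ)
    (X : Set (MvPolynomial (Fin n) (𝓞 K))) (d m N : ℕ) (hm : 1 ≤ m) (hd : 2 * m - 1 ≤ 2 * d)
    (S : Finset (HeightOneSpectrum (𝓞 K))) (α : HeightOneSpectrum (𝓞 K) → Fin N → ℂ)
    (hα : IsLocal X d (2 * m - 1) S α) (F : ℂ → ℂ) (hF : Tempered m S α F) :
    (∀ ρ A : ℝ, 0 < A →
      (List.TFAE [LeadingRH m F ρ A, BoundedMeanSquare (devStar m S α ρ A),
        SquareLaw m F (devStar m S α ρ A)] ∧
        (LeadingRH m F ρ A → ReadsZeros m F (devStar m S α ρ A))) ∧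
      ∀ c : ℝ, Tendsto (fun y : ℝ => Real.log y * (squares m S α y - c)) atTop (𝓝 0) →
        List.TFAE [LeadingRH m F ρ A, BoundedMeanSquare (dev m S α ρ A c),
          SquareLaw m F (dev m S α ρ A c)] ∧
          (LeadingRH m F ρ A → ReadsZeros m F (dev m S α ρ A c))) ∧
    ∀ (r : ℕ) (R : ℝ), 0 < R →
      ((∃ q : ℚ, 0 < q ∧ LeadingRH m F r (q * R)) ↔
        ∃ q : ℚ, 0 < q ∧ BoundedMeanSquare (devStar m S α r (q * R))) := by
  have hmc : ((m : ℝ) : ℂ) = (m : ℂ) := by push_cast; rfl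
  have E := (frob hα).sys hd
  obtain ⟨G₀, k, κ, η, C, H⟩ := Q5.VA.temp_data E ((frob hα).real hd) (tempered hm hF)
  have hmu : ∀ t : ℝ, Pool.Agent.Q5.BP.mu (fun s => F ((m : ℝ) + s)) t = mult m F t := by
    intro t
    rw [Pool.Agent.Q5.BP.mu_shift F ((m : ℝ) : ℂ) t, hmc]
    rfl
  have main : ∀ ρ A : ℝ, 0 < A →
      (List.TFAE [LeadingRH m F ρ A, BoundedMeanSquare (devStar m S α ρ A),
        SquareLaw m F (devStar m S α ρ A)] ∧
        (LeadingRH m F ρ A → ReadsZeros m F (devStar m S α ρ A))) := by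
    intro ρ A hA
    exact Pool.Agent.Q5.BP.pack H ρ hA (lead_iff m F ρ A) hmu fun y hy =>
      Pool.Agent.Results.MP_ec4e4b_nt.MeanProductOrder.dev_eq hm hA hy
  refine ⟨fun ρ A hA => ⟨main ρ A hA, fun c hc => ?_⟩, fun r R hR => ?_⟩
  · exact Pool.Agent.Q5.BP.packP H ρ hA (lead_iff m F ρ A) hmu
      (by rw [← squares_eq hm]; exact hc) fun y hy => dev_eqP hm hd hα hA hy
  · refine exists_congr fun q => and_congr_right fun hq => ?_
    have hqR : 0 < (q : ℝ) * R := mul_pos (by exact_mod_cast hq) hR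
    exact (main r (q * R) hqR).1.out 0 1

end Pool.Agent.Results.MP_29b22a_nt.ExactMeanSquareCentral
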