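import Pool.Agent.Q5.VA.Dat
import Pool.Agent.Q5.MS.Lead

/-!
# The order and the leading coefficient of `L(H^{2m-1}(X), s)` at the centre from the numbers of points

Let `X` be a smooth projective variety of dimension `d` over a number field `K` (over `ℚ` in the problem), given
by homogeneous polynomials over `𝓞 K`, and let `1 ≤ m`, `i = 2 m - 1 ≤ 2 d`. Let `S` be a finite set of primes
such that for `v ∉ S` the eigenvalues `α_{v,1}, …, α_{v,N}` of the Frobenius on `H^i(X)` are given by the numbers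
of points of `X` over the finite extensions of the residue field (by the theorem of Deligne this is so if `S`
contains the primes of bad reduction). Put

`P*(y) = exp (- ∑_{v ∉ S, q_v^k ≤ y} tr (Frob_v^k | H^i(X)) / (k q_v^{mk}))`,

a finite sum over the prime powers with sharp cut-off. Assume that the incomplete `L`-function
`∏_{v ∉ S} ∏_j (1 - α_{v,j} q_v^{-s})⁻¹` has a continuation `F` to a half plane `Re s > m - η`, analytic except
perhaps for a pole at `s = m`, of polynomial growth. Then for all real `ρ` and `A > 0` the following are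
EQUIVALENT:

1. `F(s) / (s - m)^ρ → A` for `s → m` (`ρ` an integer), and `F` has no zeros with `Re s > m`;
2. `∫_e^∞ (log (A P*(y) / (e^γ log y)^ρ))² dy/y < ∞`;
3. `(log Y)⁻¹ ∫_e^Y |log (A P*(y) / (e^γ log y)^ρ)| dy/y → 0`.

So each of the two parts (iii) and (iv) of the conjecture of Beilinson, together with the Riemann hypothesis
for `H^i(X)`, is a statement on the numbers of points of `X` over finite fields: let `R > 0` (in the
application the absolute value of the product of the period determinant and the determinant of the height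
pairing) and `r = dim V^m`. Then

`ord_{s=m} F = r`, `F* ∈ ℚ^* R` and `F` has no zeros with `Re s > m`

if and only if there is a POSITIVE RATIONAL NUMBER `q` with `∫_e^∞ (log (q R P*(y) / (e^γ log y)^r))² dy/y < ∞`.
(The Euler factors at the primes of `S` change `F*` by a rational factor, if their values at `m` are rational
and not zero.) Moreover under these conditions the set of the `y` for which `P*(y)` differs from the expected
value `(e^γ log y)^r / (q R)` by a factor outside of `[e^{-ε}, e^ε]` has finite measure with respect to `dy/y`,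
and `ρ` and `A` are determined by 2.

The proof is for arbitrary Euler products over a system of primes: `Pool.Agent.Q5.MS.Lead` and
`Pool.Agent.Q5.VA` (helper5), `Pool.Agent.TH270.MS` (helper270: Plancherel's theorem for `log L(m + s)/s` up to
the central line) and `Pool.Agent.TH942.ES` (helper942). The definition of the Frobenius eigenvalues is that of
`Pool.Agent.TH958.BV.Defs` (helper958).
-/

set_option autoImplicit false

namespace Pool.Agent.Results.MP_29b22a_nt.LeadingCoefficientCriterion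

open Filter Topology Set Complex NumberField IsDedekindDomain MeasureTheory

variable {n : ℕ}

/-- The set `X` of homogeneous polynomials over a ring `R` in `n` variables defines a projective
scheme over `R`.  For a field `κ` with `q` elements and a homomorphism `R → κ` this is `(q - 1)`
times the number of the points of `X` with coordinates in `κ`: the number of the nonzero solutions
of the equations. -/
noncomputable def cone {R : Type} [CommRing R] (X : Set (MvPolynomial (Fin n) R)) {κ : Type}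
    [Field κ] (φ : R →+* κ) : ℕ :=
  Nat.card {u : Fin n → κ // u ≠ 0 ∧ ∀ f ∈ X, MvPolynomial.eval₂ φ u f = 0}

variable {K : Type} [Field K] [NumberField K]

/-- `α_1, …, α_N` are the eigenvalues of the geometric Frobenius at the prime `v` of `K` on `H^i(X)`,
for a variety `X` of dimension `d`: there are finite multisets `β_j` of complex numbers of absolute
value `q_v^{j/2}`, `j = 0, …, 2d`, with `β_i = {α_1, …, α_N}`, such that for every finite extension
`κ` of the residue field of `v`, of degree `e`, the number of the points of `X` with coordinates in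
`κ` is `∑ (-1)^j ∑_{z ∈ β_j} z^e`.  By the theorem of Deligne such `β_j` exist at the primes of good
reduction, with `N` the `i`-th Betti number of `X`; they are unique. -/
def IsFrobenius (X : Set (MvPolynomial (Fin n) (𝓞 K))) (d i : ℕ)
    (v : HeightOneSpectrum (𝓞 K)) {N : ℕ} (α : Fin N → ℂ) : Prop :=
  ∃ β : ℕ → Multiset ℂ, β i = Finset.univ.val.map α ∧
    (∀ j, ∀ z ∈ β j, ‖z‖ = (Ideal.absNorm v.asIdeal : ℝ) ^ ((j : ℝ) / 2)) ∧
    ∀ (κ : Type) [Field κ] [Finite κ] (φ : 𝓞 K →+* κ) (e : ℕ), RingHom.ker φ = v.asIdeal →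
      Nat.card κ = Ideal.absNorm v.asIdeal ^ e →
      (cone X φ : ℂ) = ((Ideal.absNorm v.asIdeal : ℂ) ^ e - 1) *
          ∑ j ∈ Finset.range (2 * d + 1), (-1 : ℂ) ^ j * ((β j).map (fun z => z ^ e)).sum

/-- The norm `q_v`. -/
noncomputable def norm (v : HeightOneSpectrum (𝓞 K)) : ℕ := Ideal.absNorm v.asIdeal

/-- For all primes `v` outside of the finite set `S`, the `α v j` are the eigenvalues of the
Frobenius on `H^i(X)`. -/
def IsLocal (X : Set (MvPolynomial (Fin n) (𝓞 K))) (d i : ℕ) {N : ℕ}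
    (S : Finset (HeightOneSpectrum (𝓞 K))) (α : HeightOneSpectrum (𝓞 K) → Fin N → ℂ) : Prop :=
  ∀ v : HeightOneSpectrum (𝓞 K), v ∉ S → IsFrobenius X d i v (α v)

variable {N : ℕ}

/-- `F` is a continuation of the incomplete `L`-function `∏_{v ∉ S} ∏_j (1 - α_{v,j} q_v^{-s})⁻¹`
(`Re s > m + 1/2`) to a half plane `Re s > m - η`: for some `k` the function `(s - m)^k F(s)` is analytic and
of polynomial growth there. -/
def Tempered (m : ℕ) (S : Finset (HeightOneSpectrum (𝓞 K)))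
    (α : HeightOneSpectrum (𝓞 K) → Fin N → ℂ) (F : ℂ → ℂ) : Prop :=
  (∃ (η C : ℝ) (k κ : ℕ) (G : ℂ → ℂ), 0 < η ∧
    (∀ s : ℂ, m - η < s.re → DifferentiableAt ℂ G s ∧ ‖G s‖ ≤ C * (1 + ‖s‖) ^ κ) ∧
    ∀ s : ℂ, m - η < s.re → s ≠ m → G s = (s - m) ^ k * F s) ∧
  ∀ s : ℂ, (m : ℝ) + 1 / 2 < s.re →
    HasProd (fun v : {v : HeightOneSpectrum (𝓞 K) // v ∉ S} =>
      (∏ j, (1 - α v.1 j * (norm v.1 : ℂ) ^ (-s)))⁻¹) (F s)

/-- `P*(y) = exp (- ∑_{v ∉ S, q_v^k ≤ y} tr (Frob_v^k) / (k q_v^{mk}))`, the (finite) sum over the pairs `(v, k)`,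
`v` a prime outside of `S`, `k = p.2 + 1 ≥ 1`, with `q_v^k ≤ y`; the traces `∑_j α_{v,j}^k` are real. -/
noncomputable def productStar (m : ℕ) (S : Finset (HeightOneSpectrum (𝓞 K)))
    (α : HeightOneSpectrum (𝓞 K) → Fin N → ℂ) (y : ℝ) : ℝ :=
  Real.exp (-∑ᶠ (p : {v : HeightOneSpectrum (𝓞 K) // v ∉ S} × ℕ)
    (_ : (norm p.1.1 : ℝ) ^ (p.2 + 1) ≤ y),
      (∑ j, α p.1.1 j ^ (p.2 + 1)).re /
        (((p.2 : ℝ) + 1) * ((norm p.1.1 : ℝ) ^ m) ^ (p.2 + 1)))

/-- `log (A P*(y) / (e^γ log y)^ρ)` -/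
noncomputable def dev (m : ℕ) (S : Finset (HeightOneSpectrum (𝓞 K)))
    (α : HeightOneSpectrum (𝓞 K) → Fin N → ℂ) (ρ A y : ℝ) : ℝ :=
  Real.log (A * productStar m S α y / (Real.exp Real.eulerMascheroniConstant * Real.log y) ^ ρ)

/-- `ρ` is an integer, `F(s) / (s - m)^ρ → A` for `s → m`, and `F` has no zeros with `Re s > m`. -/
def LeadingRH (m : ℕ) (F : ℂ → ℂ) (ρ A : ℝ) : Prop :=
  (∃ e : ℤ, ρ = e ∧ Tendsto (fun s : ℂ => F s / (s - m) ^ e) (𝓝[≠] (m : ℂ)) (𝓝 (A : ℂ))) ∧
    ∀ s : ℂ, (m : ℝ) < s.re → F s ≠ 0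

/-- `∫_e^∞ (log (A P*(y) / (e^γ log y)^ρ))² dy/y < ∞` -/
def MeanSquareFinite (m : ℕ) (S : Finset (HeightOneSpectrum (𝓞 K)))
    (α : HeightOneSpectrum (𝓞 K) → Fin N → ℂ) (ρ A : ℝ) : Prop :=
  IntegrableOn (fun y : ℝ => dev m S α ρ A y ^ 2 / y) (Ioi (Real.exp 1))

/-! ### translation -/

open Pool.Agent.TH942.ES (zv xv cv cP Sys)
open Pool.Agent.H921R2.TatePole (nm two_le_nm)
open Pool.Agent.TH270.MS (Pl Mc DvR Dv)
open Pool.Agent.Q5.VA (NS aD)

variable {X : Set (MvPolynomial (Fin n) (𝓞 K))} {d m : ℕ}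
  {S : Finset (HeightOneSpectrum (𝓞 K))} {α : HeightOneSpectrum (𝓞 K) → Fin N → ℂ} {F : ℂ → ℂ}

theorem centre (hm : 1 ≤ m) : (m : ℝ) = (((2 * m - 1 : ℕ) : ℝ) + 1) / 2 := by
  rw [Nat.cast_sub (by omega)]
  push_cast
  ring

theorem frob {i : ℕ} (h : IsLocal X d i S α) : Q5.VA.Frob X d i S α := h

theorem log_star (hm : 1 ≤ m) (y : ℝ) :
    Real.log (productStar m S α y) = -Pl (NS S) (aD (2 * m - 1) S α) y := by
  unfold productStar Pl
  rw [Real.log_exp]
  congr 1
  refine finsum_congr fun p => finsum_congr fun _ => ?_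
  rw [Q5.VA.cP_D (m : ℝ) (centre hm) p, Real.rpow_natCast]
  rfl

theorem star_pos (y : ℝ) : 0 < productStar m S α y := Real.exp_pos _

theorem tempered (hm : 1 ≤ m) (hF : Tempered m S α F) :
    Q5.VA.TemperedAt (m : ℝ) (NS S) (aD (2 * m - 1) S α) F := by
  have hmc : ((m : ℝ) : ℂ) = (m : ℂ) := by push_cast; rfl
  obtain ⟨h1, h2⟩ := hF
  unfold Q5.VA.TemperedAt
  rw [hmc]
  refine ⟨h1, fun s hs => (h2 s hs).congr_fun fun v => ?_⟩
  have h3 := Q5.VA.factorD (i := 2 * m - 1) (S := S) (α := α) v s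
  rw [← centre hm, hmc] at h3
  exact h3

theorem dev_eq (hm : 1 ≤ m) {ρ A y : ℝ} (hA : 0 < A) (hy : Real.exp 1 ≤ y) :
    dev m S α ρ A y = -DvR (NS S) (aD (2 * m - 1) S α) ρ A y := by
  have hl : 0 < Real.log y := by linarith [Pool.Agent.TH270.MS.one_le_log hy]
  have h1 : 0 < Real.exp Real.eulerMascheroniConstant * Real.log y :=
    mul_pos (Real.exp_pos _) hl
  have h2 := Real.rpow_pos_of_pos h1 ρ
  unfold dev
  rw [Real.log_div (mul_pos hA (star_pos y)).ne' h2.ne', Real.log_mul hA.ne'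
    (star_pos y).ne', log_star hm, Real.log_rpow h1, Real.log_mul (Real.exp_pos _).ne' hl.ne',
    Real.log_exp]
  unfold DvR
  ring

theorem lim_shift (F : ℂ → ℂ) (c : ℂ) (e : ℤ) (A : ℂ) :
    Tendsto (fun s : ℂ => F (c + s) / s ^ e) (𝓝[≠] 0) (𝓝 A) ↔
      Tendsto (fun s : ℂ => F s / (s - c) ^ e) (𝓝[≠] c) (𝓝 A) := by
  have h1 : Tendsto (fun s : ℂ => c + s) (𝓝[≠] 0) (𝓝[≠] c) := by
    refine tendsto_nhdsWithin_iff.2 ⟨?_, ?_⟩
    · have h1 : Tendsto (fun s : ℂ => c + s) (𝓝 0) (𝓝 (c + 0)) :=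
        (continuous_const.add continuous_id).tendsto _
      rw [add_zero] at h1
      exact h1.mono_left nhdsWithin_le_nhds
    · filter_upwards [self_mem_nhdsWithin] with s hs
      have hs0 : s ≠ 0 := hs
      show c + s ≠ c
      simpa using hs0
  have h2 : Tendsto (fun s : ℂ => s - c) (𝓝[≠] c) (𝓝[≠] 0) := by
    refine tendsto_nhdsWithin_iff.2 ⟨?_, ?_⟩
    · have h1 : Tendsto (fun s : ℂ => s - c) (𝓝 c) (𝓝 (c - c)) :=
        (continuous_id.sub continuous_const).tendsto _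
      rw [sub_self] at h1
      exact h1.mono_left nhdsWithin_le_nhds
    · filter_upwards [self_mem_nhdsWithin] with s hs
      have hs0 : s ≠ c := hs
      show s - c ≠ 0
      exact sub_ne_zero.2 hs0
  constructor
  · intro h
    refine (h.comp h2).congr fun s => ?_
    simp only [Function.comp_apply, add_sub_cancel]
  · intro h
    refine (h.comp h1).congr fun s => ?_
    simp only [Function.comp_apply, add_sub_cancel_left]

theorem leading_unique {F : ℂ → ℂ} {c : ℂ} {e e' : ℤ} {A A' : ℂ} (hA : A ≠ 0) (hA' : A' ≠ 0)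
    (h : Tendsto (fun s : ℂ => F s / (s - c) ^ e) (𝓝[≠] c) (𝓝 A))
    (h' : Tendsto (fun s : ℂ => F s / (s - c) ^ e') (𝓝[≠] c) (𝓝 A')) : e = e' ∧ A = A' := by
  -- it is enough to exclude `e < e'`
  have key : ∀ {e e' : ℤ} {A A' : ℂ}, A ≠ 0 → 
      Tendsto (fun s : ℂ => F s / (s - c) ^ e) (𝓝[≠] c) (𝓝 A) →
      Tendsto (fun s : ℂ => F s / (s - c) ^ e') (𝓝[≠] c) (𝓝 A') → ¬ e < e' := by
    intro e e' A A' hA h h' hlt
    obtain ⟨k, hk⟩ : ∃ k : ℕ, e' = e + k := ⟨(e' - e).toNat, by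
      rw [Int.toNat_of_nonneg (by omega)]; ring⟩
    have hk0 : k ≠ 0 := by omega
    have h3 : Tendsto (fun s : ℂ => (s - c) ^ k) (𝓝[≠] c) (𝓝 0) := by
      have h4 : Tendsto (fun s : ℂ => (s - c) ^ k) (𝓝 c) (𝓝 ((c - c) ^ k)) :=
        ((continuous_id.sub continuous_const).pow k).tendsto _
      rw [sub_self, zero_pow hk0] at h4
      exact h4.mono_left nhdsWithin_le_nhds
    have h5 := h'.mul h3
    rw [mul_zero] at h5
    have h6 : Tendsto (fun s : ℂ => F s / (s - c) ^ e) (𝓝[≠] c) (𝓝 0) := by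
      refine h5.congr' ?_
      filter_upwards [self_mem_nhdsWithin] with s hs
      have hs0 : s - c ≠ 0 := sub_ne_zero.2 hs
      rw [hk, zpow_add₀ hs0, zpow_natCast]
      field_simp
    exact hA (tendsto_nhds_unique h h6)
  have he : e = e' := by
    rcases lt_trichotomy e e' with h1 | h1 | h1
    · exact absurd h1 (key hA h h')
    · exact h1
    · exact absurd h1 (key hA' h' h)
  subst he
  exact ⟨rfl, tendsto_nhds_unique h h'⟩

/-- **The order and the leading coefficient at the centre from the numbers of points.** -/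
theorem result (K : Type) [Field K] [NumberField K] (n : ℕ)
    (X : Set (MvPolynomial (Fin n) (𝓞 K))) (d m N : ℕ) (hm : 1 ≤ m) (hd : 2 * m - 1 ≤ 2 * d)
    (S : Finset (HeightOneSpectrum (𝓞 K))) (α : HeightOneSpectrum (𝓞 K) → Fin N → ℂ)
    (hα : IsLocal X d (2 * m - 1) S α) (F : ℂ → ℂ) (hF : Tempered m S α F) :
    (∀ ρ A : ℝ, 0 < A → List.TFAE [
      LeadingRH m F ρ A,
      MeanSquareFinite m S α ρ A,
      Tendsto (fun Y : ℝ => (∫ y in Real.exp 1..Y, |dev m S α ρ A y| / y) / Real.log Y) atTop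
        (𝓝 0)]) ∧
    (∀ (r : ℤ) (R : ℝ), 0 < R →
      ((∃ q : ℚ, 0 < q ∧ LeadingRH m F r (q * R)) ↔
        ∃ q : ℚ, 0 < q ∧ MeanSquareFinite m S α r (q * R))) ∧
    (∀ ρ A ρ' A' : ℝ, 0 < A → 0 < A' → MeanSquareFinite m S α ρ A →
      MeanSquareFinite m S α ρ' A' → ρ = ρ' ∧ A = A') ∧
    (∀ ρ A : ℝ, 0 < A → MeanSquareFinite m S α ρ A → ∀ ε : ℝ, 0 < ε →
      ∫⁻ y in {y : ℝ | Real.exp 1 < y ∧ ε < |dev m S α ρ A y|}, ENNReal.ofReal (1 / y) < ⊤) := by
  have hmc : ((m : ℝ) : ℂ) = (m : ℂ) := by push_cast; rfl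
  have E := (frob hα).sys hd
  obtain ⟨G₀, k, κ, η, C, H⟩ := Q5.VA.temp_data E ((frob hα).real hd) (tempered hm hF)
  have h1 : ∀ ρ A : ℝ, LeadingRH m F ρ A ↔ ((∀ s : ℂ, 0 < s.re → F ((m : ℝ) + s) ≠ 0) ∧
      ∃ e : ℤ, ρ = e ∧
        Tendsto (fun s => F ((m : ℝ) + s) / s ^ e) (𝓝[≠] 0) (𝓝 (A : ℂ))) := by
    intro ρ A
    rw [Q5.VA.zeros_shiftC]
    simp only [lim_shift, hmc]
    exact and_comm
  have h3 : ∀ ρ A : ℝ, 0 < A → (MeanSquareFinite m S α ρ A ↔
      IntegrableOn (fun Y : ℝ => DvR (NS S) (aD (2 * m - 1) S α) ρ A Y ^ 2 / Y)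
        (Ioi (Real.exp 1))) := by
    intro ρ A hA
    unfold MeanSquareFinite
    refine integrableOn_congr_fun (fun y hy => ?_) measurableSet_Ioi
    rw [dev_eq hm hA (le_of_lt hy), neg_sq]
  have h4 : ∀ ρ A : ℝ, 0 < A → (LeadingRH m F ρ A ↔ MeanSquareFinite m S α ρ A) := by
    intro ρ A hA
    rw [h1, h3 ρ A hA]
    exact (Pool.Agent.Q5.MS.lead_real H ρ hA).out 0 1
  refine ⟨fun ρ A hA => ?_, fun r R hR => ?_, fun ρ A ρ' A' hA hA' hm1 hm2 => ?_,
    fun ρ A hA h ε hε => ?_⟩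
  · tfae_have 1 ↔ 2 := h4 ρ A hA
    tfae_have 1 ↔ 3 := by
      have h5 : (fun Y : ℝ => (∫ y in Real.exp 1..Y, |dev m S α ρ A y| / y) / Real.log Y)
          =ᶠ[atTop] fun Y : ℝ => (∫ y in Real.exp 1..Y,
            |DvR (NS S) (aD (2 * m - 1) S α) ρ A y| / y) / Real.log Y := by
        filter_upwards [eventually_ge_atTop (Real.exp 1)] with Y hY
        congr 1
        refine intervalIntegral.integral_congr fun y hy => ?_
        rw [uIcc_of_le hY] at hy
        rw [dev_eq hm hA hy.1, abs_neg]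
      rw [h1, tendsto_congr' h5]
      exact (Pool.Agent.Q5.MS.lead_real H ρ hA).out 0 2
    tfae_finish
  · refine exists_congr fun q => and_congr_right fun hq => ?_
    have hq' : (0 : ℝ) < (q : ℝ) * R := mul_pos (by exact_mod_cast hq) hR
    exact h4 _ _ hq'
  · obtain ⟨⟨e, he, hl⟩, -⟩ := (h4 ρ A hA).2 hm1
    obtain ⟨⟨e', he', hl'⟩, -⟩ := (h4 ρ' A' hA').2 hm2
    obtain ⟨h5, h6⟩ := leading_unique (by exact_mod_cast hA.ne') (by exact_mod_cast hA'.ne') hl hl'
    refine ⟨by rw [he, he', h5], by exact_mod_cast h6⟩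
  · have h5 := (h3 ρ A hA).1 h
    obtain ⟨⟨e, he, -⟩, -⟩ := (h4 ρ A hA).2 h
    have hset : {y : ℝ | Real.exp 1 < y ∧ ε < |dev m S α ρ A y|} =
        {Y : ℝ | Real.exp 1 < Y ∧ ε < |DvR (NS S) (aD (2 * m - 1) S α) ρ A Y|} := by
      ext y
      refine and_congr_right fun hy => ?_
      rw [dev_eq hm hA (le_of_lt hy), abs_neg]
    rw [hset]
    refine Pool.Agent.TH270.MS.fin_log_meas h5 hε ?_
    rw [he]
    exact Pool.Agent.TH270.MS.dv_meas H e A ε

end Pool.Agent.Results.MP_29b22a_nt.LeadingCoefficientCriterion
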