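import Pool.Agent.Q18.W.Wrap
import Pool.Agent.Results.MP_ec4e4b_nt.MeanProductOrder

/-!
# The central leading coefficient of `L(H^{2m-1}(X), s)` and one sequence of windows

Let `X` be a smooth projective variety of dimension `d` over a number field `K` (for example `K = ℚ`), given by
homogeneous polynomials over `𝓞 K`, `1 ≤ m`, `2 m - 1 ≤ 2 d`, and let `α_{v,j}`, `v ∉ S`, be the eigenvalues of the
Frobenius on `H^{2m-1}(X)`, given by the numbers of points of `X` over finite fields. Let `F` be a continuation of the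
incomplete `L`-function `∏_{v ∉ S} ∏_j (1 - α_{v,j} q_v^{-s})⁻¹` which is MEROMORPHIC at every point with `Re s > m` and
at `s = m` (condition (H1) of the problem; nothing else is assumed: no functional equation, no growth condition, no
continuation to the left of the line `Re s = m`). Let

`P(x) = ∏_{v ∉ S, q_v ≤ x} |∏_j (1 - α_{v,j} q_v^{-m})|`,
`P*(x) = exp (- ∑_{v ∉ S, q_v^k ≤ x} tr (Frob_v^k | H^{2m-1}(X)) / (k q_v^{mk}))`

be the partial Euler products at the centre with the SHARP cut-off, and `0 < δ < 1`. All hypotheses are made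
only for `x` in the windows `[Y^(1-δ), Y]` of ONE unbounded set of values of `Y`.

1. If `F` has no real poles `> m` and `P*(x) ≤ C (log x)^κ` there, then `F` has no zeros and no poles with
   `Re s > m`, `ord_{s=m} F ≤ κ`, and in the case of equality the leading coefficient `c` satisfies
   `|c| ≥ e^(κγ) / C`. The same with `P` instead of `P*`, without the statement on `c`.
2. If `C' (log x)^ρ ≤ P*(x)` and `P*(x) ≤ C (log x)^ρ` there, then `F` has no zeros and no poles with `Re s > m`,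
   `ord_{s=m} F = ρ`, and `C' ≤ e^(ργ) / |c| ≤ C` (real poles of `F` need not be excluded).
3. If for some positive rational number `q` the quotient `q R P*(x) / (e^γ log x)^r` tends to `1` there, then `F` has no
   zeros and no poles with `Re s > m`, `ord_{s=m} F = r` and `|c| ∈ ℚ R`: with `r = dim V^m` and
   `R = |det Π · det ⟨ , ⟩|` these are parts (iii) and (iv) of the conjecture of Beilinson.
4. (No hypothesis on the product.) If `F` has no real poles `> m`, then for every `ε > 0` EVERY window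
   `[Y^(1-δ), Y]` with `Y` large contains an `x` with `P*(x) > (1 - ε) (e^γ log x)^ρ / |c|`, `ρ = ord_{s=m} F`.

The proof (`Pool.Agent.Q18.W`): the means of the summatory function with the weights `u^k e^{-σu}`, `σ` fixed and
`k → ∞`, are given by the Taylor coefficients of `log F` at `m + σ`.
-/

set_option autoImplicit false

namespace Pool.Agent.Results.MP_29b22a_nt.OneSequenceOfWindows

open Filter Topology Set Complex NumberField IsDedekindDomain
open Pool.Agent.Results.MP_ec4e4b_nt.MeanProductOrder (cone IsFrobenius norm IsLocal upTo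
  product productStar)

variable {K : Type} [Field K] [NumberField K] {N : ℕ}

/-- `F` is a continuation of the incomplete `L`-function `∏_{v ∉ S} ∏_j (1 - α_{v,j} q_v^{-s})⁻¹`
(`Re s > m + 1/2`), meromorphic at every point with `Re s > m` and at `m`. -/
def Continues (m : ℕ) (S : Finset (HeightOneSpectrum (𝓞 K)))
    (α : HeightOneSpectrum (𝓞 K) → Fin N → ℂ) (F : ℂ → ℂ) : Prop :=
  (∀ s : ℂ, (m : ℝ) < s.re → MeromorphicAt F s) ∧ MeromorphicAt F m ∧
  ∀ s : ℂ, (m : ℝ) + 1 / 2 < s.re →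
    HasProd (fun v : {v : HeightOneSpectrum (𝓞 K) // v ∉ S} =>
      (∏ j, (1 - α v.1 j * (norm v.1 : ℂ) ^ (-s)))⁻¹) (F s)

/-- `F` has no zeros and no poles with `Re s > m`. -/
def Free (m : ℕ) (F : ℂ → ℂ) : Prop := ∀ s : ℂ, (m : ℝ) < s.re → meromorphicOrderAt F s = 0

/-- `F` has no real poles `x > m`. -/
def NoRealPoles (m : ℕ) (F : ℂ → ℂ) : Prop := ∀ x : ℝ, (m : ℝ) < x → 0 ≤ meromorphicOrderAt F (x : ℂ)

/-- `c` is the coefficient of `(s - m)^e` in the expansion of `F` at `m`, where `e` is the order. -/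
def IsLeading (m : ℕ) (F : ℂ → ℂ) (e : ℤ) (c : ℂ) : Prop :=
  meromorphicOrderAt F m = e ∧ Tendsto (fun s : ℂ => F s / (s - m) ^ e) (𝓝[≠] (m : ℂ)) (𝓝 c)

/-- `p x` holds for all `x` in the window `[Y^(1-δ), Y]`, for arbitrarily large `Y`. -/
def Windows (δ : ℝ) (p : ℝ → Prop) : Prop :=
  ∃ᶠ Y : ℝ in atTop, ∀ x : ℝ, Y ^ (1 - δ) ≤ x → x ≤ Y → p x

/-! ### translation -/

open Pool.Agent.Results.MP_ec4e4b_nt.MeanProductOrder (centre frob cpow_m log_product log_star star_pos)
open Pool.Agent.TH942.ES (zv xv Sys)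
open Pool.Agent.TH270.MS (Pl)
open Pool.Agent.Q5.MS (Pv)
open Pool.Agent.Q5.VA (NS aD)
open Pool.Agent.Q18.W (Win Dw)

variable {n : ℕ} {X : Set (MvPolynomial (Fin n) (𝓞 K))} {d m : ℕ}
  {S : Finset (HeightOneSpectrum (𝓞 K))} {α : HeightOneSpectrum (𝓞 K) → Fin N → ℂ} {F : ℂ → ℂ}

theorem product_pos (hm : 1 ≤ m) (h : IsLocal X d (2 * m - 1) S α) (y : ℝ) :
    0 < product m S α y := by
  unfold product
  refine finprod_mem_induction (fun x : ℝ => 0 < x) one_pos (fun x y hx hy => mul_pos hx hy)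
    fun v hv => ?_
  rw [norm_pos_iff, Finset.prod_ne_zero_iff]
  intro j _ h0
  have h1 := (frob h).lt_one ⟨v, hv.1⟩ j
  rw [← centre hm, cpow_m, ← sub_eq_zero.1 h0, norm_one] at h1
  exact lt_irrefl _ h1

theorem data (hm : 1 ≤ m) (hd : 2 * m - 1 ≤ 2 * d) (hα : IsLocal X d (2 * m - 1) S α)
    (hF : Continues m S α F) : Dw (NS S) (aD (2 * m - 1) S α) (fun s => F (((m : ℝ) : ℂ) + s)) := by
  have hmc : ((m : ℝ) : ℂ) = (m : ℂ) := by push_cast; rfl
  obtain ⟨h1, h2, h3⟩ := hF
  refine Pool.Agent.Q18.W.dw_of ((frob hα).sys hd) ((frob hα).real hd) h1 (by rw [hmc]; exact h2) fun s hs => ?_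
  refine (h3 s hs).congr_fun fun v => ?_
  have h4 := Q5.VA.factorD (i := 2 * m - 1) (S := S) (α := α) v s
  rw [← centre hm, hmc] at h4
  rw [hmc]
  exact h4

/-- **The central leading coefficient and one sequence of windows.** -/
theorem result (K : Type) [Field K] [NumberField K] (n : ℕ)
    (X : Set (MvPolynomial (Fin n) (𝓞 K))) (d m N : ℕ) (hm : 1 ≤ m) (hd : 2 * m - 1 ≤ 2 * d)
    (S : Finset (HeightOneSpectrum (𝓞 K))) (α : HeightOneSpectrum (𝓞 K) → Fin N → ℂ)
    (hα : IsLocal X d (2 * m - 1) S α) (F : ℂ → ℂ) (hF : Continues m S α F)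
    (δ : ℝ) (h0 : 0 < δ) (h1 : δ < 1) :
    (NoRealPoles m F → ∀ κ C : ℝ, 0 < C → (Windows δ fun x => productStar m S α x ≤ C * Real.log x ^ κ) →
      Free m F ∧ ∃ e : ℤ, meromorphicOrderAt F m = e ∧ (e : ℝ) ≤ κ ∧
        ((e : ℝ) = κ → ∀ c : ℂ, IsLeading m F e c →
          Real.exp (e * Real.eulerMascheroniConstant) / C ≤ ‖c‖)) ∧
    (NoRealPoles m F → ∀ κ C : ℝ, (Windows δ fun x => product m S α x ≤ C * Real.log x ^ κ) →
      Free m F ∧ ∃ e : ℤ, meromorphicOrderAt F m = e ∧ (e : ℝ) ≤ κ) ∧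
    (∀ ρ C C' : ℝ, 0 < C → 0 < C' → (Windows δ fun x => productStar m S α x ≤ C * Real.log x ^ ρ) →
      (Windows δ fun x => C' * Real.log x ^ ρ ≤ productStar m S α x) →
      Free m F ∧ ∃ e : ℤ, ρ = e ∧ meromorphicOrderAt F m = e ∧ ∀ c : ℂ, IsLeading m F e c →
        C' ≤ Real.exp (e * Real.eulerMascheroniConstant) / ‖c‖ ∧
          Real.exp (e * Real.eulerMascheroniConstant) / ‖c‖ ≤ C) ∧
    (∀ (r : ℤ) (R : ℝ), 0 < R → (∃ q : ℚ, 0 < q ∧ ∀ ε : ℝ, 0 < ε → Windows δ fun x =>
        |q * R * productStar m S α x / (Real.exp Real.eulerMascheroniConstant * Real.log x) ^ (r : ℝ) - 1| < ε) →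
      Free m F ∧ meromorphicOrderAt F m = r ∧ ∃ q : ℚ, 0 < q ∧ ∀ c : ℂ, IsLeading m F r c → ‖c‖ = q * R) ∧
    (NoRealPoles m F → ∀ (e : ℤ) (c : ℂ), IsLeading m F e c → ∀ ε : ℝ, 0 < ε → ε < 1 →
      ∀ᶠ Y : ℝ in atTop, ∃ x : ℝ, Y ^ (1 - δ) ≤ x ∧ x ≤ Y ∧
        (1 - ε) * (Real.exp (e * Real.eulerMascheroniConstant) / ‖c‖) * Real.log x ^ (e : ℝ) <
          productStar m S α x) := by
  have hmc : ((m : ℝ) : ℂ) = (m : ℂ) := by push_cast; rfl
  have H := data hm hd hα hF
  have hP := product_pos hm hα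
  have hlP := log_product hm hd hα
  have hQ : ∀ x : ℝ, 0 < productStar m S α x := fun x => star_pos x
  have hlQ : ∀ x : ℝ, Real.log (productStar m S α x) = -Pl (NS S) (aD (2 * m - 1) S α) x := fun x => log_star hm x
  refine ⟨fun hr κ C hC h => ?_, fun hr κ C h => ?_, fun ρ C C' hC hC' h h' => ?_, fun r R hR h => ?_,
    fun hr e c hc ε hε hε1 => ?_⟩
  · obtain ⟨f1, e, f2, f3, f4⟩ := Pool.Agent.Q18.W.star_one H hQ hlQ h0 h1 hC hr h
    rw [hmc] at f2 f4
    exact ⟨f1, e, f2, f3, fun he c hc => f4 he c hc.2⟩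
  · obtain ⟨f1, e, f2, f3⟩ := Pool.Agent.Q18.W.prime_one H hP hlP h0 h1 hr h
    rw [hmc] at f2
    exact ⟨f1, e, f2, f3⟩
  · obtain ⟨f1, e, f2, f3, f4⟩ := Pool.Agent.Q18.W.star_two H hQ hlQ h0 h1 h0 h1 hC hC' h h'
    rw [hmc] at f3 f4
    exact ⟨f1, e, f2, f3, fun c hc => (f4 c hc.2).2⟩
  · obtain ⟨q, hq, hw⟩ := h
    have hqR : 0 < (q : ℝ) * R := mul_pos (by exact_mod_cast hq) hR
    set g : ℝ := Real.exp Real.eulerMascheroniConstant with hg
    have hgr : 0 < g ^ (r : ℝ) := Real.rpow_pos_of_pos (Real.exp_pos _) _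
    set A : ℝ := g ^ (r : ℝ) / (q * R) with hA
    have hA0 : 0 < A := by positivity
    obtain ⟨f1, e, f2, f3, f4⟩ := Pool.Agent.Q18.W.star_lim H hQ hlQ h0 h1 (ρ := (r : ℝ)) (A := A) hA0
      (fun ε hε => by
        refine Win.mono h1 (hw (ε / A) (by positivity)) ?_
        filter_upwards [eventually_gt_atTop 1] with x hx h2
        have hl := Real.log_pos hx
        have hp := Real.rpow_pos_of_pos hl (r : ℝ)
        rw [Real.mul_rpow (Real.exp_pos _).le hl.le] at h2
        have e1 : q * R * productStar m S α x / (g ^ (r : ℝ) * Real.log x ^ (r : ℝ)) - 1 =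
            (productStar m S α x / Real.log x ^ (r : ℝ) - A) / A := by
          rw [hA]
          field_simp
        rw [e1, abs_div, abs_of_pos hA0, div_lt_div_iff_of_pos_right hA0] at h2
        exact h2)
    have her : e = r := by exact_mod_cast f2.symm
    subst her
    rw [hmc] at f3 f4
    refine ⟨f1, f3, q, hq, fun c hc => ?_⟩
    have f5 := f4 c hc.2
    have e2 : g ^ (e : ℝ) = Real.exp (e * Real.eulerMascheroniConstant) := by
      rw [hg, ← Real.exp_mul, mul_comm]
    rw [hA, e2] at f5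
    have f6 := Real.exp_pos (e * Real.eulerMascheroniConstant)
    have hc0 : ‖c‖ ≠ 0 := by
      intro h3
      rw [h3, div_zero] at f5
      have : 0 < Real.exp (e * Real.eulerMascheroniConstant) / (q * R) := by positivity
      linarith
    rw [div_eq_div_iff hqR.ne' hc0] at f5
    exact mul_left_cancel₀ f6.ne' f5
  · refine Pool.Agent.Q18.W.star_omega H hQ hlQ h0 h1 hr (by rw [hmc]; exact hc.1) ?_ hε hε1
    rw [hmc]
    exact hc.2

end Pool.Agent.Results.MP_29b22a_nt.OneSequenceOfWindows
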