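import Pool.Agent.Q5.OM.Pack
import Pool.Agent.Results.MP_29b22a_nt.ExactMeanSquareCentral

/-!
# The partial Euler products of `L(H^{2m-1}(X), s)` at the centre oscillate around the predicted value

Let `X` be a smooth projective variety of dimension `d` over a number field `K` (for example `K = ℚ`), given by
homogeneous polynomials over `𝓞 K`, `1 ≤ m`, `2 m - 1 ≤ 2 d`, and let `α_{v,j}`, `v ∉ S`, be the eigenvalues of the
Frobenius on `H^{2m-1}(X)`, given by the numbers of points of `X` over finite fields. Let `F` be a continuation of the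
incomplete `L`-function `∏_{v ∉ S} ∏_j (1 - α_{v,j} q_v^{-s})⁻¹` to a half plane `Re s > m - η`, analytic except perhaps
for a pole at `s = m`, of polynomial growth. Let

`P(y) = ∏_{v ∉ S, q_v ≤ y} |∏_j (1 - α_{v,j} q_v^{-m})|`,
`P*(y) = exp (- ∑_{v ∉ S, q_v^k ≤ y} tr (Frob_v^k | H^{2m-1}(X)) / (k q_v^{mk}))`

be the partial Euler products at the centre with the SHARP cut-off, and for real `ρ` and `A > 0`

`δ*(y) = log (A P*(y) / (e^γ log y)^ρ)`,  `δ(y) = log (A e^c P(y) / (e^γ log y)^ρ)`.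

Write `μ_t` for the order of vanishing of `F` at `m + it` and `(L)` for: `ρ` is an integer, `F(s)/(s - m)^ρ → A` for
`s → m`, and `F` has no zeros with `Re s > m`.

1. UPPER BOUNDS. If `log y · δ*(y) ≤ B` for all large `y`, then `F` has no zeros with `Re s > m`, and under `(L)`
   `B ≥ μ_t/|t|` for every `t ≠ 0`.
2. LOWER BOUNDS. If `F` has no REAL zeros `s > m`, the same follows from `log y · δ*(y) ≥ -B` for all large `y`.
3. POSITIVE PROPORTION. Under `(L)`, for every `t ≠ 0` and `0 ≤ c < μ_t/(2|t|)` the sets `{y : log y · δ*(y) > c}` and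
   `{y : log y · δ*(y) < -c}` both have lower logarithmic density at least `(μ_t/|t| - 2c)²/(4V)`, where
   `V = ∑_{t ≠ 0} μ_t²/t²`.

The same holds for `δ` if `log y · (∑_{√y < q_v ≤ y} tr (Frob_v²)/(2 q_v^{2m}) - c) → 0`.

Beilinson's conjecture predicts `ρ = dim CH^m(X)^0 ⊗ ℚ` and `A ∈ ℚ^* · det Π · det ⟨ , ⟩`. In the last part `R > 0` is the
predicted number up to a rational factor and `r` the predicted order: if for SOME rational `q > 0` and some `B` the
one-sided bound `P*(y) ≤ (1 + B/log y) (e^γ log y)^r/(q R)` holds for large `y` (in the form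
`log y · log (q R P*(y)/(e^γ log y)^r) ≤ B`), then `F` has no zeros with `Re s > m`, and if the prediction holds with the
rational factor `q'`, then `q ≤ q'`; for lower bounds `q ≥ q'`.
-/

set_option autoImplicit false

namespace Pool.Agent.Results.MP_29b22a_nt.OscillationCentral

open Filter Topology Set Complex NumberField IsDedekindDomain MeasureTheory
open Pool.Agent.Results.MP_ec4e4b_nt.MeanProductOrder (cone IsFrobenius norm IsLocal Tempered upTo
  product productStar)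
open Pool.Agent.Results.MP_29b22a_nt.ExactMeanSquareCentral (LeadingRH devStar dev squares mult meanSquare
  SquareLaw ReadsZeros)

/-- `F` has no zeros with `Re s > m`. -/
def RH (m : ℕ) (F : ℂ → ℂ) : Prop := ∀ s : ℂ, (m : ℝ) < s.re → F s ≠ 0

/-- `(log Y)⁻¹ ∫_e^Y 1[W(y) > c] dy/y`, the logarithmic share of the `y ≤ Y` with `W(y) > c`. -/
noncomputable def share (W : ℝ → ℝ) (c Y : ℝ) : ℝ :=
  (∫ y in Real.exp 1..Y, (if c < W y then (1 : ℝ) else 0) / y) / Real.log Y

/-- The upper bound `log y · δ(y) ≤ B` for large `y` implies `RH m F`, and, if `ρ` and `A` are the order and the leading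
coefficient of `F` at `m`, that `μ_t/|t| ≤ B` for all `t ≠ 0`. -/
def UpperBounds (m : ℕ) (F : ℂ → ℂ) (ρ A : ℝ) (δ : ℝ → ℝ) : Prop :=
  ∀ B : ℝ, (∀ᶠ y : ℝ in atTop, Real.log y * δ y ≤ B) →
    RH m F ∧ (LeadingRH m F ρ A → ∀ t : ℝ, t ≠ 0 → (mult m F t : ℝ) / |t| ≤ B)

/-- If `F` has no real zeros `> m`: the lower bound `log y · δ(y) ≥ -B` for large `y` implies `RH m F`, and, if `ρ`
and `A` are the order and the leading coefficient of `F` at `m`, that `μ_t/|t| ≤ B` for all `t ≠ 0`. -/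
def LowerBounds (m : ℕ) (F : ℂ → ℂ) (ρ A : ℝ) (δ : ℝ → ℝ) : Prop :=
  ∀ B : ℝ, (∀ x : ℝ, (m : ℝ) < x → F x ≠ 0) → (∀ᶠ y : ℝ in atTop, -B ≤ Real.log y * δ y) →
    RH m F ∧ (LeadingRH m F ρ A → ∀ t : ℝ, t ≠ 0 → (mult m F t : ℝ) / |t| ≤ B)

/-- Under `LeadingRH m F ρ A`, for `t ≠ 0` and `0 ≤ c < μ_t/(2|t|)` the sets `{y : log y · δ(y) > c}` and
`{y : log y · δ(y) < -c}` have lower logarithmic density at least `(μ_t/|t| - 2c)²/(4V)`, `V = ∑ μ_t²/t²`. -/
def Densities (m : ℕ) (F : ℂ → ℂ) (ρ A : ℝ) (δ : ℝ → ℝ) : Prop :=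
  LeadingRH m F ρ A → ∀ V : ℝ, HasSum (fun t : ℝ => ((mult m F t : ℝ) / t) ^ 2) V →
    ∀ t c : ℝ, t ≠ 0 → 0 ≤ c → 2 * c < (mult m F t : ℝ) / |t| → ∀ ε : ℝ, 0 < ε → ∀ᶠ Y : ℝ in atTop,
      ((mult m F t : ℝ) / |t| - 2 * c) ^ 2 / (4 * V) - ε ≤ share (fun y => Real.log y * δ y) c Y ∧
      ((mult m F t : ℝ) / |t| - 2 * c) ^ 2 / (4 * V) - ε ≤ share (fun y => -(Real.log y * δ y)) c Y

/-- All three statements. -/
def Oscillates (m : ℕ) (F : ℂ → ℂ) (ρ A : ℝ) (δ : ℝ → ℝ) : Prop :=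
  UpperBounds m F ρ A δ ∧ LowerBounds m F ρ A δ ∧ Densities m F ρ A δ

/-! ### translation -/

open Pool.Agent.Results.MP_ec4e4b_nt.MeanProductOrder (centre frob cpow_m tempered log_product)
open Pool.Agent.Results.MP_29b22a_nt.ExactMeanSquareCentral (squares_eq dev_eqP lim_shift)
open Pool.Agent.Q5.VA (NS aD)
open Pool.Agent.TH270.MS (Mc DvR BM)
open Pool.Agent.Q5.BP (bm_log DvP bm_dvP dvP_close)
open Pool.Agent.Q5.MS (bm_dvR)

theorem zeros {m : ℕ} {F : ℂ → ℂ} : (∀ s : ℂ, 0 < s.re → F ((m : ℝ) + s) ≠ 0) ↔ RH m F := by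
  constructor
  · intro h s hs
    have := h (s - (m : ℝ)) (by
      rw [Complex.sub_re, Complex.ofReal_re]
      linarith)
    rwa [add_sub_cancel] at this
  · intro h s hs
    exact h _ (by
      rw [Complex.add_re, Complex.ofReal_re]
      linarith)

theorem oscillates {G₀ : ℂ → ℂ} {k κ m : ℕ} {η C : ℝ} {X : Type} {d : ℕ} {N : X → ℕ}
    {α : X → Fin d → ℂ} {F : ℂ → ℂ} (H : Mc N α (fun s => F ((m : ℝ) + s)) G₀ k κ η C) {ρ A : ℝ}
    {δ : ℝ → ℝ} (hW : BM fun y => Real.log y * δ y)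
    (hcl : Tendsto (fun y : ℝ => Real.log y * -DvR N α ρ A y - Real.log y * δ y) atTop (𝓝 0))
    (h1 : LeadingRH m F ρ A → SquareLaw m F δ) (h2 : LeadingRH m F ρ A → ReadsZeros m F δ) :
    Oscillates m F ρ A δ := by
  obtain ⟨k1, k2, k3⟩ := Pool.Agent.Q5.OM.om_pack H ρ A (P := LeadingRH m F ρ A) (m := mult m F) hW hcl
    h1 h2
  refine ⟨fun B hB => ?_, fun B hx hB => ?_, k3⟩
  · obtain ⟨h3, h4⟩ := k1 B hB
    exact ⟨zeros.1 h3, h4⟩
  · obtain ⟨h3, h4⟩ := k2 B (fun x hx0 => by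
      have := hx (m + x) (by linarith)
      push_cast at this ⊢
      exact this) hB
    exact ⟨zeros.1 h3, h4⟩

/-- the values of `δ*` for two leading coefficients -/
theorem devStar_diff {K : Type} [Field K] [NumberField K] {N m : ℕ}
    {S : Finset (HeightOneSpectrum (𝓞 K))} {α : HeightOneSpectrum (𝓞 K) → Fin N → ℂ} (hm : 1 ≤ m)
    {ρ A B y : ℝ} (hA : 0 < A) (hB : 0 < B) (hy : Real.exp 1 ≤ y) :
    devStar m S α ρ A y - devStar m S α ρ B y = Real.log A - Real.log B := by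
  have h1 : devStar m S α ρ A y = _ :=
    Pool.Agent.Results.MP_ec4e4b_nt.MeanProductOrder.dev_eq hm hA hy
  have h2 : devStar m S α ρ B y = _ :=
    Pool.Agent.Results.MP_ec4e4b_nt.MeanProductOrder.dev_eq hm hB hy
  rw [h1, h2]
  unfold DvR
  ring

/-- **Oscillation of the Euler products at the centre.** -/
theorem result (K : Type) [Field K] [NumberField K] (n : ℕ)
    (X : Set (MvPolynomial (Fin n) (𝓞 K))) (d m N : ℕ) (hm : 1 ≤ m) (hd : 2 * m - 1 ≤ 2 * d)
    (S : Finset (HeightOneSpectrum (𝓞 K))) (α : HeightOneSpectrum (𝓞 K) → Fin N → ℂ)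
    (hα : IsLocal X d (2 * m - 1) S α) (F : ℂ → ℂ) (hF : Tempered m S α F) :
    (∀ ρ A : ℝ, 0 < A → Oscillates m F ρ A (devStar m S α ρ A) ∧
      ∀ c : ℝ, Tendsto (fun y : ℝ => Real.log y * (squares m S α y - c)) atTop (𝓝 0) →
        Oscillates m F ρ A (dev m S α ρ A c)) ∧
    ∀ (r : ℕ) (R : ℝ), 0 < R → ∀ (q : ℚ) (B : ℝ), 0 < q →
      ((∀ᶠ y : ℝ in atTop, Real.log y * devStar m S α r (q * R) y ≤ B) → RH m F ∧
        ∀ q' : ℚ, 0 < q' → LeadingRH m F r (q' * R) → q ≤ q') ∧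
      ((∀ x : ℝ, (m : ℝ) < x → F x ≠ 0) →
        (∀ᶠ y : ℝ in atTop, -B ≤ Real.log y * devStar m S α r (q * R) y) → RH m F ∧
        ∀ q' : ℚ, 0 < q' → LeadingRH m F r (q' * R) → q' ≤ q) := by
  obtain ⟨t0, -⟩ := Pool.Agent.Results.MP_29b22a_nt.ExactMeanSquareCentral.result K n X d m N hm hd S α hα
    F hF
  have E := (frob hα).sys hd
  obtain ⟨G₀, k, κ, η, C, H⟩ := Q5.VA.temp_data E ((frob hα).real hd) (tempered hm hF)
  have main : ∀ ρ A : ℝ, 0 < A → Oscillates m F ρ A (devStar m S α ρ A) := by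
    intro ρ A hA
    obtain ⟨⟨t1, r1⟩, t2⟩ := t0 ρ A hA
    have b1 := bm_log.mul (bm_dvR H ρ A).neg
    have e : ∀ y : ℝ, Real.exp 1 ≤ y → devStar m S α ρ A y = _ := fun y hy =>
      Pool.Agent.Results.MP_ec4e4b_nt.MeanProductOrder.dev_eq hm hA hy
    refine oscillates H ?_ ?_ (fun h => (t1.out 0 2).1 h) r1
    · exact Pool.Agent.Q5.OM.bm_congr b1 fun y hy => by rw [e y hy]
    · refine tendsto_const_nhds.congr' ?_
      filter_upwards [eventually_ge_atTop (Real.exp 1)] with y hy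
      rw [e y hy, sub_self]
  refine ⟨fun ρ A hA => ⟨main ρ A hA, fun c hc => ?_⟩, fun r R hR q B hq => ?_⟩
  · obtain ⟨⟨t1, r1⟩, t2⟩ := t0 ρ A hA
    obtain ⟨t3, r3⟩ := t2 c hc
    have hcl := dvP_close H.E ρ A (c := c) (by rw [← squares_eq hm]; exact hc)
    have e : ∀ y : ℝ, Real.exp 1 ≤ y → dev m S α ρ A c y = DvP _ _ ρ A c y := fun y hy =>
      dev_eqP hm hd hα hA hy
    refine oscillates H ?_ ?_ (fun h => (t3.out 0 2).1 h) r3
    · exact Pool.Agent.Q5.OM.bm_congr (bm_log.mul (bm_dvP H ρ A c)) fun y hy => by rw [e y hy]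
    · have h3 := hcl.neg
      rw [neg_zero] at h3
      refine h3.congr' ?_
      filter_upwards [eventually_ge_atTop (Real.exp 1)] with y hy
      rw [e y hy]
      ring
  · have hqR : 0 < (q : ℝ) * R := mul_pos (by exact_mod_cast hq) hR
    obtain ⟨u1, u2, -⟩ := main r (q * R) hqR
    have hlog : Tendsto (fun y : ℝ => Real.log y) atTop atTop := Real.tendsto_log_atTop
    have key : ∀ q' : ℚ, 0 < q' → ∀ y : ℝ, Real.exp 1 ≤ y →
        Real.log y * devStar m S α r (q' * R) y = Real.log y * devStar m S α r (q * R) y -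
          Real.log y * (Real.log (q * R) - Real.log (q' * R)) := by
      intro q' hq' y hy
      have hq'R : 0 < (q' : ℝ) * R := mul_pos (by exact_mod_cast hq') hR
      rw [← devStar_diff (K := K) (m := m) (S := S) (α := α) (ρ := (r : ℝ)) hm hqR hq'R hy]
      ring
    refine ⟨fun hb => ⟨(u1 B hb).1, fun q' hq' hL => ?_⟩, fun hx hb => ⟨(u2 B hx hb).1, fun q' hq' hL => ?_⟩⟩
    · by_contra hlt
      push Not at hlt
      have hq'R : 0 < (q' : ℝ) * R := mul_pos (by exact_mod_cast hq') hR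
      obtain ⟨u3, -, -⟩ := main r (q' * R) hq'R
      have hlt' : (q' : ℝ) * R < q * R := mul_lt_mul_of_pos_right (by exact_mod_cast hlt) hR
      have hd0 : 0 < Real.log (q * R) - Real.log (q' * R) :=
        sub_pos.2 (Real.log_lt_log hq'R hlt')
      have h4 : ∀ᶠ y : ℝ in atTop, Real.log y * devStar m S α r (q' * R) y ≤ -1 := by
        filter_upwards [hb, eventually_ge_atTop (Real.exp 1),
          (hlog.atTop_mul_const hd0).eventually_ge_atTop (B + 1)] with y h1 h2 h3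
        rw [key q' hq' y h2]
        linarith
      have h5 := (u3 (-1) h4).2 hL 1 one_ne_zero
      have h6 : 0 ≤ (mult m F 1 : ℝ) / |1| := by positivity
      linarith
    · by_contra hlt
      push Not at hlt
      have hq'R : 0 < (q' : ℝ) * R := mul_pos (by exact_mod_cast hq') hR
      obtain ⟨-, u3, -⟩ := main r (q' * R) hq'R
      have hlt' : (q : ℝ) * R < q' * R := mul_lt_mul_of_pos_right (by exact_mod_cast hlt) hR
      have hd0 : 0 < Real.log (q' * R) - Real.log (q * R) :=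
        sub_pos.2 (Real.log_lt_log hqR hlt')
      have h4 : ∀ᶠ y : ℝ in atTop, -(-1 : ℝ) ≤ Real.log y * devStar m S α r (q' * R) y := by
        filter_upwards [hb, eventually_ge_atTop (Real.exp 1),
          (hlog.atTop_mul_const hd0).eventually_ge_atTop (B + 1)] with y h1 h2 h3
        rw [key q' hq' y h2]
        linarith
      have h5 := (u3 (-1) hx h4).2 hL 1 one_ne_zero
      have h6 : 0 ≤ (mult m F 1 : ℝ) / |1| := by positivity
      linarith

end Pool.Agent.Results.MP_29b22a_nt.OscillationCentral
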